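import Pool.Agent.H31.TS

namespace Pool.Agent.Results.MP_5a7388_gt.Main

open Pool.Agent.H31.TS

theorem result : ∃ (X : Type) (_ : SemilatticeInf X) (_ : TopologicalSpace X),
    ContinuousInf X ∧ T2Space X ∧ CComplete X ∧ ¬ SComplete X :=
  ⟨Xᵒᵈ, inferInstance, inferInstance, inferInstance, inferInstanceAs (T2Space X), cC, notS⟩

end Pool.Agent.Results.MP_5a7388_gt.Main
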